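import Pool.Agent.Kal5.Assembly

/-!
In every 5-polytope the average number of vertices of a 3-face is at most `10 ^ 10`.
-/

set_option autoImplicit false

namespace Pool.Agent.Results.MP_716236_co.AverageThreeFace

/-- real `n`-space -/
abbrev Sp (n : ℕ) : Type := EuclideanSpace ℝ (Fin n)

/-- convex hulls of finite sets -/
def IsPolytope {n : ℕ} (P : Set (Sp n)) : Prop :=
  ∃ S : Finset (Sp n), P = convexHull ℝ (S : Set (Sp n))

/-- the dimension of the affine hull (0 for the empty set) -/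
noncomputable def dim {n : ℕ} (P : Set (Sp n)) : ℕ := Module.finrank ℝ (vectorSpan ℝ P)

/-- the set of 3-faces -/
def Faces3 {n : ℕ} (P : Set (Sp n)) : Set (Set (Sp n)) := {F | IsExposed ℝ P F ∧ dim F = 3}

/-- the incidences of vertices and 3-faces -/
def Inc {n : ℕ} (P : Set (Sp n)) : Set (Sp n × Set (Sp n)) :=
  {y | IsExposed ℝ P y.2 ∧ dim y.2 = 3 ∧ y.1 ∈ Set.extremePoints ℝ y.2}

theorem result (n : ℕ) (P : Set (Sp n)) (hP : IsPolytope P) (h5 : dim P = 5) :
    (Faces3 P).Finite ∧ (Inc P).Finite ∧ (Inc P).ncard ≤ 10 ^ 10 * (Faces3 P).ncard :=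
  Pool.Agent.Kal5.s_avg n P hP h5

end Pool.Agent.Results.MP_716236_co.AverageThreeFace
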