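import Pool.Agent.KF.E.SmallFace
import Pool.Agent.KF.T.WU
import Pool.Agent.KF.S.Main
import Pool.Agent.LFC.Core

/-!
Unavoidable k-faces, explicit form: for every k there is a finite list of k-polytopes such that
every polytope of dimension at least k (k + 3) / 2 has a k-face combinatorially equivalent to a
member of the list; the k-face can be taken with at most c_k complete flags and with at most
c_k / ((r + 1)! (k - r)!) faces of dimension r for all r, where c_0 = 1, c_{k+1} = (k + 2) c_k ^ 2.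
-/

set_option autoImplicit false

namespace Pool.Agent.Results.MP_716236_co.SmallFaces

/-- real `n`-space -/
abbrev Sp (n : ℕ) : Type := EuclideanSpace ℝ (Fin n)

/-- convex hulls of finite sets -/
def IsPolytope {n : ℕ} (P : Set (Sp n)) : Prop :=
  ∃ S : Finset (Sp n), P = convexHull ℝ (S : Set (Sp n))

/-- the dimension of the affine hull (0 for the empty set) -/
noncomputable def dim {n : ℕ} (P : Set (Sp n)) : ℕ := Module.finrank ℝ (vectorSpan ℝ P)

/-- the poset of faces (with the empty set and `P`) -/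
def Faces {n : ℕ} (P : Set (Sp n)) : Set (Set (Sp n)) := {F | IsExposed ℝ P F}

/-- the nonempty faces of dimension `r` -/
def FacesOfDim {n : ℕ} (P : Set (Sp n)) (r : ℕ) : Set (Set (Sp n)) :=
  {G | G ∈ Faces P ∧ G.Nonempty ∧ dim G = r}

/-- the complete flags of a `k`-dimensional polytope `F`: increasing sequences of faces
`φ 0 ⊆ φ 1 ⊆ ... ⊆ φ (k - 1)` of `F` with `φ i` nonempty of dimension `i` -/
def Flags {n : ℕ} (k : ℕ) (F : Set (Sp n)) : Set (Fin k → Set (Sp n)) :=
  {φ | Monotone φ ∧ ∀ i : Fin k, φ i ∈ Faces F ∧ (φ i).Nonempty ∧ dim (φ i) = (i : ℕ)}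

/-- `c 0 = 1`, `c (k + 1) = (k + 2) * (c k) ^ 2` -/
def c : ℕ → ℕ
  | 0 => 1
  | k + 1 => (k + 2) * c k ^ 2

lemma cc_eq (k : ℕ) : Pool.Agent.KF.E.cc k = c k := by
  induction k with
  | zero => rfl
  | succ k ih => rw [Pool.Agent.KF.E.cc, c, ih]

theorem result (k : ℕ) :
    ∃ (m : ℕ) (Q : Fin m → Set (Sp k)), (∀ i, IsPolytope (Q i) ∧ dim (Q i) = k) ∧
      ∀ (n : ℕ) (P : Set (Sp n)), IsPolytope P → P.Nonempty → k * (k + 3) ≤ 2 * dim P →
        ∃ F ∈ Faces P, F.Nonempty ∧ dim F = k ∧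
          ((Flags k F).Finite ∧ (Flags k F).ncard ≤ c k) ∧
          (∀ r ≤ k, (FacesOfDim F r).Finite ∧
            (FacesOfDim F r).ncard * ((r + 1).factorial * (k - r).factorial) ≤ c k) ∧
          ∃ i : Fin m, Nonempty (Faces F ≃o Faces (Q i)) := by
  have hWU : Pool.Agent.KF.E.WU := Pool.Agent.KF.T.wu Pool.Agent.KF.S.shr Pool.Agent.KF.S.s_FACE
    Pool.Agent.KF.S.s_EX Pool.Agent.KF.S.s_DETW Pool.Agent.KF.S.s_PDS Pool.Agent.KF.K.K_final
  obtain ⟨m, Q, hQ, h⟩ := Pool.Agent.KF.E.smallFace hWU k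
  refine ⟨m, Q, hQ, ?_⟩
  rintro n P ⟨S, rfl⟩ hne hd
  obtain ⟨F, h1, h2, h3, h4, h5, h6⟩ := h n S (by
    have := convexHull_nonempty_iff.1 hne
    exact Finset.coe_nonempty.1 this) hd
  rw [cc_eq] at h4 h5
  exact ⟨F, h1, h2, h3, h4, h5, h6⟩

end Pool.Agent.Results.MP_716236_co.SmallFaces
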