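import Pool.Agent.Kal5.Assembly

/-!
Unavoidable 3-faces, smallest dimension: there is a finite list of 3-polytopes such that every
polytope of dimension at least 5 has a 3-face combinatorially equivalent to a member of the list,
and no finite list has this property for the 4-polytopes.
-/

set_option autoImplicit false

namespace Pool.Agent.Results.MP_716236_co.ThreeFacesDimFive

/-- real `n`-space -/
abbrev Sp (n : ℕ) : Type := EuclideanSpace ℝ (Fin n)

/-- convex hulls of finite sets -/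
def IsPolytope {n : ℕ} (P : Set (Sp n)) : Prop :=
  ∃ S : Finset (Sp n), P = convexHull ℝ (S : Set (Sp n))

/-- the dimension of the affine hull (0 for the empty set) -/
noncomputable def dim {n : ℕ} (P : Set (Sp n)) : ℕ := Module.finrank ℝ (vectorSpan ℝ P)

/-- the poset of faces (with the empty set and `P`) -/
def Faces {n : ℕ} (P : Set (Sp n)) : Set (Set (Sp n)) := {F | IsExposed ℝ P F}

theorem result :
    (∃ (m : ℕ) (Q : Fin m → Set (Sp 3)), (∀ i, IsPolytope (Q i) ∧ dim (Q i) = 3) ∧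
      ∀ (n : ℕ) (P : Set (Sp n)), IsPolytope P → 5 ≤ dim P →
        ∃ F ∈ Faces P, F.Nonempty ∧ dim F = 3 ∧
          (∃ T : Finset (Sp n), T.card ≤ 10 ^ 10 ∧ (7 ≤ dim P → T.card ≤ 96) ∧
            F = convexHull ℝ (T : Set (Sp n))) ∧
          ∃ i : Fin m, Nonempty (Faces F ≃o Faces (Q i))) ∧
    ∀ (m : ℕ) (Q : Fin m → Set (Sp 3)), (∀ i, IsPolytope (Q i)) →
      ∃ P : Set (Sp 4), IsPolytope P ∧ dim P = 4 ∧
        ∀ F ∈ Faces P, dim F = 3 → ∀ i : Fin m, IsEmpty (Faces F ≃o Faces (Q i)) :=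
  ⟨Pool.Agent.Kal5.combine Pool.Agent.Kal5.s_fin, Pool.Agent.Kal5.sharp_list⟩

end Pool.Agent.Results.MP_716236_co.ThreeFacesDimFive
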